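import Mathlib

namespace Pool.Agent.Results.MP_43f51c_co.Eight

/-- `S` is an outer-connected dominating set of `G`. -/
def IsOCD {V : Type} (G : SimpleGraph V) (S : Set V) : Prop :=
  (∀ v, ∃ u ∈ S, u = v ∨ G.Adj v u) ∧ (G.induce Sᶜ).Connected

/-- The outer-connected domination number. -/
noncomputable def ocd {V : Type} (G : SimpleGraph V) : ℕ :=
  sInf {k | ∃ S : Finset V, S.card = k ∧ IsOCD G S}

/-- The middle graph of `G`. -/
def middle {V : Type} (G : SimpleGraph V) : SimpleGraph (V ⊕ G.edgeSet) where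
  Adj
    | Sum.inl _, Sum.inl _ => False
    | Sum.inl v, Sum.inr e => v ∈ (e : Sym2 V)
    | Sum.inr e, Sum.inl v => v ∈ (e : Sym2 V)
    | Sum.inr e, Sum.inr f => e ≠ f ∧ ∃ v, v ∈ (e : Sym2 V) ∧ v ∈ (f : Sym2 V)
  symm := ⟨by
    rintro (a | a) (b | b) h
    · exact h
    · exact h
    · exact h
    · exact ⟨h.1.symm, h.2.imp fun _ h => h.symm⟩⟩
  loopless := ⟨by
    rintro (a | a) h
    · exact h
    · exact h.1 rfl⟩

theorem conn_of_pot {V : Type} (G : SimpleGraph V) (T : Set V) (r : V) (hr : r ∈ T) (d : V → ℕ)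
    (h : ∀ w ∈ T, w = r ∨ ∃ w' ∈ T, G.Adj w w' ∧ d w' < d w) : (G.induce T).Connected := by
  have key : ∀ k, ∀ w : T, d w < k → (G.induce T).Reachable w ⟨r, hr⟩ := by
    intro k
    induction k with
    | zero => intro w hw; omega
    | succ k ih =>
      intro w hw
      rcases h w w.2 with e | ⟨w', hw', ha, hd⟩
      · rw [show w = ⟨r, hr⟩ from Subtype.ext e]
      · exact (SimpleGraph.Adj.reachable (show (G.induce T).Adj w ⟨w', hw'⟩ from ha)).trans
          (ih ⟨w', hw'⟩ (by simp only; omega))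
  have : Nonempty T := ⟨⟨r, hr⟩⟩
  exact ⟨fun u v => (key _ u (Nat.lt_succ_self _)).trans (key _ v (Nat.lt_succ_self _)).symm⟩

theorem cut {V : Type} (G : SimpleGraph V) (T U : Set V) (hc : (G.induce T).Connected)
    (h : ∀ a ∈ T, ∀ b ∈ T, G.Adj a b → a ∈ U → b ∈ U) (a b : V) (ha : a ∈ T) (hb : b ∈ T)
    (hU : a ∈ U) : b ∈ U := by
  obtain ⟨p⟩ := hc.preconnected ⟨a, ha⟩ ⟨b, hb⟩
  have : ∀ (x y : T) (_ : (G.induce T).Walk x y), x.1 ∈ U → y.1 ∈ U := by
    intro x y p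
    induction p with
    | nil => exact id
    | cons hxy _ ih => exact fun hx => ih (h _ (Subtype.property _) _ (Subtype.property _) hxy hx)
  exact this _ _ p hU

def E : List (Fin 8 × Fin 8) :=
  [(0, 1), (0, 7), (1, 7), (2, 3), (2, 6), (3, 6), (4, 6), (4, 7), (5, 6), (5, 7), (6, 7)]

def G : SimpleGraph (Fin 8) where
  Adj a b := (a, b) ∈ E ∨ (b, a) ∈ E
  symm := ⟨fun _ _ h => h.symm⟩
  loopless := ⟨by decide⟩

instance : DecidableRel G.Adj := fun a b => inferInstanceAs (Decidable ((a, b) ∈ E ∨ (b, a) ∈ E))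

instance : DecidableRel (middle G).Adj := fun a b =>
  match a, b with
  | Sum.inl _, Sum.inl _ => isFalse (fun h => h)
  | Sum.inl v, Sum.inr e => inferInstanceAs (Decidable (v ∈ (e : Sym2 (Fin 8))))
  | Sum.inr e, Sum.inl v => inferInstanceAs (Decidable (v ∈ (e : Sym2 (Fin 8))))
  | Sum.inr e, Sum.inr f => inferInstanceAs
      (Decidable (e ≠ f ∧ ∃ v, v ∈ (e : Sym2 (Fin 8)) ∧ v ∈ (f : Sym2 (Fin 8))))

def S : Finset (Fin 8 ⊕ G.edgeSet) :=
  {Sum.inr ⟨s(0, 1), by decide⟩, Sum.inr ⟨s(2, 3), by decide⟩, Sum.inr ⟨s(4, 6), by decide⟩,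
    Sum.inr ⟨s(5, 7), by decide⟩}

def d : Fin 8 ⊕ G.edgeSet → ℕ
  | Sum.inl _ => 2
  | Sum.inr e => if e.1 = s(6, 7) then 0 else 1

theorem upper : ocd (middle G) ≤ 4 := by
  refine Nat.sInf_le ⟨S, by decide +kernel, ?_, ?_⟩
  · simp only [Finset.mem_coe]; decide +kernel
  · refine conn_of_pot _ _ (Sum.inr ⟨s(6, 7), by decide⟩) ?_ d ?_
    · simp only [Set.mem_compl_iff, Finset.mem_coe]; decide +kernel
    · simp only [Set.mem_compl_iff, Finset.mem_coe]; decide +kernel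

def Cut (T U : Finset (Fin 8)) : Prop :=
  (∀ a, a ∉ T → ∀ b, b ∉ T → G.Adj a b → a ∈ U → b ∈ U) ∧
    ∃ a b, a ∉ T ∧ b ∉ T ∧ a ∈ U ∧ b ∉ U

instance (T U : Finset (Fin 8)) : Decidable (Cut T U) := by unfold Cut; infer_instance

theorem lower : 4 ≤ ocd G := by
  refine le_csInf ⟨4, {0, 2, 4, 5}, by decide, ?_, ?_⟩ ?_
  · simp only [Finset.mem_coe]; decide
  · refine conn_of_pot _ _ 6 ?_ ![0, 2, 0, 1, 0, 0, 0, 1] ?_
    · simp only [Set.mem_compl_iff, Finset.mem_coe]; decide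
    · simp only [Set.mem_compl_iff, Finset.mem_coe]; decide
  · rintro k ⟨T, rfl, h1, h2⟩
    by_contra hlt
    have key : ∀ T : Finset (Fin 8), ¬ 4 ≤ T.card → (∀ v, ∃ u ∈ T, u = v ∨ G.Adj v u) →
        ∃ U ∈ ({{0, 1}, {2, 3}} : Finset (Finset (Fin 8))), Cut T U := by decide +kernel
    obtain ⟨U, _, h3, a, b, ha, hb, haU, hbU⟩ := key T hlt (by simpa using h1)
    exact hbU (cut G _ (U : Set (Fin 8)) h2 (by simpa using h3) a b (by simpa using ha)
      (by simpa using hb) (by simpa using haU))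

theorem result : ∃ (n : ℕ) (G : SimpleGraph (Fin n)), 2 ≤ n ∧ G.Connected ∧
    (∃ S : Finset (Fin n ⊕ G.edgeSet), IsOCD (middle G) S) ∧ ocd (middle G) ≤ ocd G := by
  refine ⟨8, G, by norm_num, by decide +kernel, ⟨S, ?_, ?_⟩, upper.trans lower⟩
  · simp only [Finset.mem_coe]; decide +kernel
  · refine conn_of_pot _ _ (Sum.inr ⟨s(6, 7), by decide⟩) ?_ d ?_
    · simp only [Set.mem_compl_iff, Finset.mem_coe]; decide +kernel
    · simp only [Set.mem_compl_iff, Finset.mem_coe]; decide +kernel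

end Pool.Agent.Results.MP_43f51c_co.Eight
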